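import Mathlib

/-! Power sums of cubic integers along the exponents `3 ^ k`. -/

namespace Pool.Agent.Lib.MP_2c63aa_nt

/-- Elementary symmetric functions of the cubes of the roots. -/
def phi (s : ℤ × ℤ × ℤ) : ℤ × ℤ × ℤ :=
  (s.1 ^ 3 - 3 * (s.1 * s.2.1) + 3 * s.2.2,
    s.2.1 ^ 3 - 3 * (s.1 * s.2.1 * s.2.2) + 3 * s.2.2 ^ 2, s.2.2 ^ 3)

/-- `x, y, z` have the elementary symmetric functions `s`. -/
def Sym {R : Type} [CommRing R] (s : ℤ × ℤ × ℤ) (x y z : R) : Prop :=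
  x + y + z = s.1 ∧ x * y + y * z + z * x = s.2.1 ∧ x * y * z = s.2.2

theorem Sym.iter {R : Type} [CommRing R] {s : ℤ × ℤ × ℤ} {x y z : R} (h : Sym s x y z) (k : ℕ) :
    Sym (phi^[k] s) (x ^ 3 ^ k) (y ^ 3 ^ k) (z ^ 3 ^ k) := by
  induction k with
  | zero => simpa using h
  | succ k ih =>
    obtain ⟨h1, h2, h3⟩ := ih
    rw [Function.iterate_succ_apply', pow_succ, pow_mul, pow_mul, pow_mul]
    refine ⟨?_, ?_, ?_⟩ <;> simp only [phi] <;> push_cast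
    · rw [← h1, ← h2, ← h3]; ring
    · rw [← h1, ← h2, ← h3]; ring
    · rw [← h3]; ring

theorem exists_sym (F : Type) [Field F] [IsAlgClosed F] (s : ℤ × ℤ × ℤ) :
    ∃ x y z : F, Sym s x y z := by
  let P : Cubic F := ⟨1, -s.1, s.2.1, -s.2.2⟩
  have ha : P.a ≠ 0 := one_ne_zero
  obtain ⟨x, y, z, h⟩ := (Cubic.splits_iff_roots_eq_three (φ := RingHom.id F) ha).1
    (IsAlgClosed.splits _)
  have h1 := Cubic.b_eq_three_roots ha h
  have h2 := Cubic.c_eq_three_roots ha h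
  have h3 := Cubic.d_eq_three_roots ha h
  simp only [P, RingHom.id_apply, one_mul] at h1 h2 h3
  exact ⟨x, y, z, by linear_combination h1, by linear_combination -h2, by linear_combination h3⟩

theorem exists_exp {T e k : ℕ} (hT : 0 < T) (he : ¬ 3 ^ (e + 1) ∣ T) (hk : e ≤ k) :
    ∃ j > k, 3 ^ j ≡ 3 ^ k [MOD T] := by
  obtain ⟨i, T', h1, rfl⟩ := Nat.exists_eq_pow_mul_and_not_dvd hT.ne' 3 (by norm_num)
  have hi : i ≤ k := by
    by_contra hc
    exact he ((pow_dvd_pow 3 (by omega)).mul_right _)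
  have hT' : 0 < T' := Nat.pos_of_mul_pos_left hT
  have hc : Nat.Coprime 3 T' := (Nat.Prime.coprime_iff_not_dvd Nat.prime_three).2 h1
  refine ⟨k + T'.totient, by have := Nat.totient_pos.2 hT'; omega, ?_⟩
  have h2 := (Nat.ModEq.pow_totient hc).mul_left' (3 ^ k)
  rw [mul_one, ← pow_add] at h2
  exact h2.of_dvd (Nat.mul_dvd_mul_right (pow_dvd_pow 3 hi) _)

theorem pow_congr {F : Type} [Field F] {w : F} {T m n : ℕ} (h : w ^ (T + 1) = w) (hm : 0 < m)
    (hn : 0 < n) (e : m ≡ n [MOD T]) : w ^ m = w ^ n := by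
  by_cases h0 : w = 0
  · rw [h0, zero_pow hm.ne', zero_pow hn.ne']
  · have : w ^ T = 1 := mul_right_cancel₀ h0 (by rw [← pow_succ, h, one_mul])
    exact pow_eq_pow_of_modEq e this

/-- If all roots satisfy `w ^ (T + 1) = w` the trace returns to the same residue. -/
theorem trace_return {p : ℕ} [Fact p.Prime] {s : ℤ × ℤ × ℤ} {x y z : AlgebraicClosure (ZMod p)}
    (h : Sym s x y z) {T e k : ℕ} (hT : 0 < T) (he : ¬ 3 ^ (e + 1) ∣ T) (hk : e ≤ k)
    (hx : x ^ (T + 1) = x) (hy : y ^ (T + 1) = y) (hz : z ^ (T + 1) = z) :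
    ∃ j > k, (phi^[j] s).1 ≡ (phi^[k] s).1 [ZMOD p] := by
  obtain ⟨j, hj, e⟩ := exists_exp hT he hk
  refine ⟨j, hj, (CharP.intCast_eq_intCast (AlgebraicClosure (ZMod p)) p).1 ?_⟩
  rw [← (h.iter j).1, ← (h.iter k).1, pow_congr hx (by positivity) (by positivity) e,
    pow_congr hy (by positivity) (by positivity) e, pow_congr hz (by positivity) (by positivity) e]

theorem frob_root {F : Type} [Field F] {s : ℤ × ℤ × ℤ} {x y z : F} (h : Sym s x y z)
    (φ : F →+* F) {w : F} (hw : w = x ∨ w = y ∨ w = z) : φ w = x ∨ φ w = y ∨ φ w = z := by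
  obtain ⟨h1, h2, h3⟩ := h
  have a : w ^ 3 - s.1 * w ^ 2 + s.2.1 * w - s.2.2 = 0 := by
    rw [← h1, ← h2, ← h3]; rcases hw with rfl | rfl | rfl <;> ring
  have b := congrArg φ a
  simp only [map_sub, map_add, map_mul, map_pow, map_intCast, map_zero] at b
  rw [← h1, ← h2, ← h3] at b
  have c : (φ w - x) * ((φ w - y) * (φ w - z)) = 0 := by linear_combination b
  simpa only [mul_eq_zero, sub_eq_zero] using c

theorem frob_six {F : Type} {x y z : F} {φ : F → F} (hi : Function.Injective φ)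
    (h : ∀ w, w = x ∨ w = y ∨ w = z → φ w = x ∨ φ w = y ∨ φ w = z) {w : F}
    (hw : w = x ∨ w = y ∨ w = z) : φ^[6] w = w := by
  have h1 := h _ hw
  have h2 := h _ h1
  have h3 := h _ h2
  have : φ w = w ∨ φ (φ w) = w ∨ φ (φ (φ w)) = w := by
    by_contra hc
    push Not at hc
    have a : φ (φ w) ≠ φ w := fun e => hc.1 (hi e)
    have b : φ (φ (φ w)) ≠ φ w := fun e => hc.2.1 (hi e)
    have c : φ (φ (φ w)) ≠ φ (φ w) := fun e => a (hi e)
    grind
  simp only [Function.iterate_succ, Function.iterate_zero, Function.comp, id]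
  rcases this with e | e | e <;> simp only [e]

theorem frob_three {F : Type} [Field F] {x y z : F} (φ : F →+* F) (h2 : (2 : F) ≠ 0)
    (h : ∀ w, w = x ∨ w = y ∨ w = z → φ w = x ∨ φ w = y ∨ φ w = z)
    (hd : φ ((x - y) * (y - z) * (z - x)) = (x - y) * (y - z) * (z - x))
    (h0 : (x - y) * (y - z) * (z - x) ≠ 0) {w : F}
    (hw : w = x ∨ w = y ∨ w = z) : φ^[3] w = w := by
  have hi := φ.injective
  have hxy : x ≠ y := fun e => h0 (by simp [e])
  have hyz : y ≠ z := fun e => h0 (by simp [e])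
  have hzx : z ≠ x := fun e => h0 (by simp [e])
  have a : φ x ≠ φ y := hi.ne hxy
  have b : φ y ≠ φ z := hi.ne hyz
  have c : φ z ≠ φ x := hi.ne hzx
  simp only [map_mul, map_sub] at hd
  have key : ∀ {P : Prop}, (φ x - φ y) * (φ y - φ z) * (φ z - φ x) =
      -((x - y) * (y - z) * (z - x)) → P := fun e =>
    absurd (mul_left_cancel₀ h2 (by linear_combination e - hd)) h0
  simp only [Function.iterate_succ, Function.iterate_zero, Function.comp, id]
  rcases h x (Or.inl rfl) with e1 | e1 | e1 <;> rcases h y (Or.inr (Or.inl rfl)) with e2 | e2 | e2 <;>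
    rcases h z (Or.inr (Or.inr rfl)) with e3 | e3 | e3 <;>
    first
    | exact absurd (e1.trans e2.symm) a
    | exact absurd (e2.trans e3.symm) b
    | exact absurd (e3.trans e1.symm) c
    | (rcases hw with rfl | rfl | rfl <;> simp only [e1, e2, e3]; done)
    | exact key (by rw [e1, e2, e3]; ring)

theorem return_six {p : ℕ} (hp : p.Prime) (s : ℤ × ℤ × ℤ) {e k : ℕ}
    (he : ¬ 3 ^ (e + 1) ∣ p ^ 6 - 1) (hk : e ≤ k) :
    ∃ j > k, (phi^[j] s).1 ≡ (phi^[k] s).1 [ZMOD p] := by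
  have := Fact.mk hp
  obtain ⟨x, y, z, h⟩ := exists_sym (AlgebraicClosure (ZMod p)) s
  have h1 : 1 < p ^ 6 := Nat.one_lt_pow (by norm_num) hp.one_lt
  have key : ∀ w, w = x ∨ w = y ∨ w = z → w ^ (p ^ 6 - 1 + 1) = w := fun w hw => by
    rw [Nat.sub_add_cancel h1.le, ← iterate_frobenius]
    exact frob_six (frobenius _ p).injective (fun _ => frob_root h _) hw
  exact trace_return h (by omega) he hk (key _ (by simp)) (key _ (by simp)) (key _ (by simp))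

/-- The discriminant of `X ^ 3 - a X ^ 2 + b X - c`. -/
def disc (s : ℤ × ℤ × ℤ) : ℤ :=
  s.1 ^ 2 * s.2.1 ^ 2 - 4 * s.2.1 ^ 3 - 4 * s.1 ^ 3 * s.2.2 - 27 * s.2.2 ^ 2 +
    18 * s.1 * s.2.1 * s.2.2

theorem Sym.disc_eq {R : Type} [CommRing R] {s : ℤ × ℤ × ℤ} {x y z : R} (h : Sym s x y z) :
    (disc s : R) = ((x - y) * (y - z) * (z - x)) ^ 2 := by
  obtain ⟨h1, h2, h3⟩ := h
  simp only [disc]
  push_cast
  rw [← h1, ← h2, ← h3]; ring

theorem return_three {p : ℕ} (hp : p.Prime) (h2 : p ≠ 2) (h3 : p % 3 = 2) (s : ℤ × ℤ × ℤ)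
    (h0 : (disc s : ZMod p) ≠ 0) (hd : IsSquare (disc s : ZMod p)) (k : ℕ) :
    ∃ j > k, (phi^[j] s).1 ≡ (phi^[k] s).1 [ZMOD p] := by
  have := Fact.mk hp
  obtain ⟨x, y, z, h⟩ := exists_sym (AlgebraicClosure (ZMod p)) s
  have h1 : 1 < p ^ 3 := Nat.one_lt_pow (by norm_num) hp.one_lt
  let ι := algebraMap (ZMod p) (AlgebraicClosure (ZMod p))
  obtain ⟨d, hd⟩ := hd
  have e1 : ι d ^ 2 = ((x - y) * (y - z) * (z - x)) ^ 2 := by
    rw [← h.disc_eq, sq, ← map_mul, ← hd, map_intCast]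
  have e2 : frobenius _ p (ι d) = ι d := by rw [frobenius_def, ← map_pow, ZMod.pow_card]
  have e3 : (x - y) * (y - z) * (z - x) ≠ 0 := fun e => h0 (ι.injective (by
    rw [map_intCast, h.disc_eq, e]; simp))
  have e4 : (2 : AlgebraicClosure (ZMod p)) ≠ 0 := fun e => h2 (by
    have := (CharP.cast_eq_zero_iff (AlgebraicClosure (ZMod p)) p 2).1 (by simpa using e)
    exact (Nat.prime_dvd_prime_iff_eq hp Nat.prime_two).1 this)
  have key : ∀ w, w = x ∨ w = y ∨ w = z → w ^ (p ^ 3 - 1 + 1) = w := fun w hw => by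
    rw [Nat.sub_add_cancel h1.le, ← iterate_frobenius]
    refine frob_three (frobenius _ p) e4 (fun _ => frob_root h _) ?_ e3 hw
    rcases sq_eq_sq_iff_eq_or_eq_neg.1 e1 with e | e
    · rw [← e, e2]
    · rw [← neg_eq_iff_eq_neg] at e
      rw [← e, map_neg, e2]
  refine trace_return (e := 0) h (by omega) ?_ (Nat.zero_le _) (key _ (by simp)) (key _ (by simp))
    (key _ (by simp))
  have : p ^ 3 % 3 = 2 := by rw [Nat.pow_mod, h3]
  omega

/-- congruence of triples -/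
def Cg (n : ℤ) (s t : ℤ × ℤ × ℤ) : Prop :=
  s.1 ≡ t.1 [ZMOD n] ∧ s.2.1 ≡ t.2.1 [ZMOD n] ∧ s.2.2 ≡ t.2.2 [ZMOD n]

theorem cube_cg {n a b : ℤ} (h : a ≡ b [ZMOD 3 * n]) : a ^ 3 ≡ b ^ 3 [ZMOD 3 * (3 * n)] := by
  obtain ⟨u, hu⟩ := h.dvd
  refine Int.modEq_of_dvd ⟨u * (a ^ 2 + 3 * a * n * u + 3 * n ^ 2 * u ^ 2), ?_⟩
  rw [show b = a + 3 * n * u by linear_combination hu]; ring

theorem Cg.phi {n : ℤ} {s t : ℤ × ℤ × ℤ} (h : Cg (3 * n) s t) :
    Cg (3 * (3 * n)) (phi s) (phi t) :=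
  ⟨((cube_cg h.1).sub ((h.1.mul h.2.1).mul_left')).add h.2.2.mul_left',
    ((cube_cg h.2.1).sub (((h.1.mul h.2.1).mul h.2.2).mul_left')).add (h.2.2.pow 2).mul_left',
    cube_cg h.2.2⟩

theorem cube_three (a : ℤ) : a ^ 3 ≡ a [ZMOD 3] := by
  have : a % 3 = 0 ∨ a % 3 = 1 ∨ a % 3 = 2 := by omega
  rcases this with h | h | h <;> simp [Int.ModEq, pow_succ, Int.mul_emod, h]

theorem cg_iter (s : ℤ × ℤ × ℤ) (k : ℕ) : Cg 3 (phi^[k] s) s := by
  induction k with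
  | zero => exact ⟨rfl, rfl, rfl⟩
  | succ k ih =>
    rw [Function.iterate_succ_apply']
    generalize phi^[k] s = t at ih
    refine ⟨.trans ?_ ih.1, .trans ?_ ih.2.1, .trans (cube_three _) ih.2.2⟩
    · exact .trans (Int.modEq_of_dvd ⟨t.1 * t.2.1 - t.2.2, by simp only [phi]; ring⟩)
        (cube_three _)
    · exact .trans (Int.modEq_of_dvd ⟨t.1 * t.2.1 * t.2.2 - t.2.2 ^ 2, by simp only [phi]; ring⟩)
        (cube_three _)

theorem cg_81 (s : ℤ × ℤ × ℤ) (k : ℕ) :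
    (phi^[k + 3] s).1 ≡ (phi^[3] (s.1 % 3, s.2.1 % 3, s.2.2 % 3)).1 [ZMOD 81] := by
  have h0 : Cg (3 * 1) (phi^[k] s) (s.1 % 3, s.2.1 % 3, s.2.2 % 3) :=
    ⟨(cg_iter s k).1.trans (Int.mod_modEq _ _).symm, (cg_iter s k).2.1.trans (Int.mod_modEq _ _).symm,
      (cg_iter s k).2.2.trans (Int.mod_modEq _ _).symm⟩
  rw [add_comm, Function.iterate_add_apply]
  exact h0.phi.phi.phi.1

theorem sq_of_six {p : ℕ} (hp : 0 < p) (h : 3 ^ (4 + 1) ∣ p ^ 6 - 1) : (p : ℤ) ^ 2 ≡ 1 [ZMOD 81] := by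
  have h1 : p ^ 6 % 243 = 1 := by
    have : 1 ≤ p ^ 6 := Nat.one_le_pow _ _ hp
    omega
  rw [Nat.pow_mod] at h1
  have key : ∀ r < 243, r ^ 6 % 243 = 1 → r ^ 2 % 81 = 1 := by decide +kernel
  have h2 := key _ (Nat.mod_lt p (by norm_num)) h1
  rw [Nat.pow_mod, Nat.mod_mod_of_dvd _ (by norm_num), ← Nat.pow_mod] at h2
  have : ((p ^ 2 % 81 : ℕ) : ℤ) = 1 := by exact_mod_cast h2
  push_cast at this
  exact this

/-- The arithmetic core: a strictly increasing sequence of primes of the form trace minus `e`. -/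
theorem core (s : ℤ × ℤ × ℤ) (e : ℤ) (p : ℕ → ℕ) (k0 : ℕ) (hp : ∀ k ≥ k0, (p k).Prime)
    (he : ∀ k ≥ k0, (p k : ℤ) = (phi^[k] s).1 - e) (hm : ∀ k ≥ k0, ∀ j > k, p k < p j) :
    ((phi^[3] (s.1 % 3, s.2.1 % 3, s.2.2 % 3)).1 - e) ^ 2 ≡ 1 [ZMOD 81] ∧
    ∀ k ≥ k0, p k ≠ 2 → (s.1 - e) % 3 = 2 → (disc s : ZMod (p k)) ≠ 0 →
      ¬ IsSquare (disc s : ZMod (p k)) := by
  have no : ∀ k ≥ k0, ¬ ∃ j > k, (phi^[j] s).1 ≡ (phi^[k] s).1 [ZMOD p k] := by
    rintro k hk ⟨j, hj, h⟩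
    have h1 := h.sub_right e
    rw [← he k hk, ← he j (by omega)] at h1
    have h2 : p k ∣ p j := by
      have := h1.symm.dvd
      exact_mod_cast (dvd_sub_self_right.1 this)
    have := (Nat.prime_dvd_prime_iff_eq (hp k hk) (hp j (by omega))).1 h2
    have := hm k hk j hj
    omega
  refine ⟨?_, fun k hk h2 h3 h0 hd => no k hk (return_three (hp k hk) h2 ?_ s h0 hd k)⟩
  · have hk : k0 + 1 + 3 ≥ k0 := by omega
    have h1 : 3 ^ (4 + 1) ∣ p (k0 + 1 + 3) ^ 6 - 1 := by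
      by_contra hc
      exact no _ hk (return_six (hp _ hk) s hc (by omega))
    have h2 := sq_of_six (hp _ hk).pos h1
    rw [he _ hk] at h2
    exact (((cg_81 s _).sub_right e).pow 2).symm.trans h2
  · have h4 := (cg_iter s k).1.sub_right e
    rw [← he k hk] at h4
    unfold Int.ModEq at h4
    omega

theorem floor_trace {s : ℤ × ℤ × ℤ} {β y z : ℝ} (h : Sym s β y z) (hz : |z| < |y|) (hy : |y| < 1) :
    ∃ k0, ∀ k ≥ k0, ⌊β ^ 3 ^ k⌋ = (phi^[k] s).1 - if y < 0 then 0 else 1 := by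
  obtain ⟨n, hn⟩ := exists_pow_lt_of_lt_one (show (0 : ℝ) < 1 / 2 by norm_num) hy
  refine ⟨n, fun k hk => ?_⟩
  have hodd : Odd (3 ^ k) := Odd.pow (by decide)
  have h1 : |y ^ 3 ^ k| < 1 / 2 := by
    rw [abs_pow]
    refine lt_of_le_of_lt (pow_le_pow_of_le_one (abs_nonneg _) hy.le ?_) hn
    exact hk.trans (Nat.lt_pow_self (by norm_num)).le
  have h2 : |z ^ 3 ^ k| < |y ^ 3 ^ k| := by
    rw [abs_pow, abs_pow]
    exact pow_lt_pow_left₀ hz (abs_nonneg _) (by positivity)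
  have h3 := (h.iter k).1
  rw [Int.floor_eq_iff]
  have h4 := abs_lt.1 h2
  split_ifs with c
  · have h5 : y ^ 3 ^ k < 0 := hodd.pow_neg c
    rw [abs_of_neg h5] at h1 h4
    push_cast
    constructor <;> linarith [h4.1, h4.2]
  · have h5 : 0 ≤ y ^ 3 ^ k := pow_nonneg (not_lt.1 c) _
    rw [abs_of_nonneg h5] at h1 h4
    push_cast
    constructor <;> linarith [h4.1, h4.2]

end Pool.Agent.Lib.MP_2c63aa_nt
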