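import Mathlib
import Pool.Agent.Lib.MP_2c63aa_nt.Cubic

namespace Pool.Agent.Lib.MP_2c63aa_nt

/-- Let `A` be a Mills number such that `A ^ 3 ^ m` is a root of `X ^ 3 - a X ^ 2 + b X - c` whose
other roots `y, z` are real with `|z| < |y| < 1`. Then the cubic lies in a short list of classes
modulo three, and when the Mills primes are `2` modulo three its discriminant is a non-residue
modulo all large Mills primes. -/
theorem cubic_all (A : ℝ) (hA : ∀ n : ℕ, 1 ≤ n → Nat.Prime ⌊A ^ 3 ^ n⌋₊) (m : ℕ) (a b c : ℤ)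
    (y z : ℝ) (h1 : A ^ 3 ^ m + y + z = a) (h2 : A ^ 3 ^ m * y + y * z + z * A ^ 3 ^ m = b)
    (h3 : A ^ 3 ^ m * y * z = c) (hz : |z| < |y|) (hy : |y| < 1) :
    (y < 0 → (a % 3, b % 3, c % 3) ∈
      [(1, 0, 0), (1, 1, 1), (1, 2, 2), (2, 0, 0), (2, 1, 2), (2, 2, 1)]) ∧
    (0 < y → (a % 3, b % 3, c % 3) ∈ [(0, 0, 0), (0, 1, 0), (0, 2, 0), (2, 1, 0)]) ∧
    ((y < 0 ∧ a % 3 = 2) ∨ (0 < y ∧ a % 3 = 0) → ∃ n₀ : ℕ, ∀ n ≥ n₀,
      ¬ IsSquare ((a ^ 2 * b ^ 2 - 4 * b ^ 3 - 4 * a ^ 3 * c - 27 * c ^ 2 + 18 * a * b * c : ℤ) :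
        ZMod ⌊A ^ 3 ^ n⌋₊)) := by
  have hs : Sym (a, b, c) (A ^ 3 ^ m) y z := ⟨h1, h2, h3⟩
  obtain ⟨k0, hk0⟩ := floor_trace hs hz hy
  have two : ∀ n, 1 ≤ n → (2 : ℝ) ≤ A ^ 3 ^ n := fun n hn => by
    have := (hA n hn).two_le
    exact_mod_cast (Nat.le_floor_iff' (by norm_num)).1 this
  have hA1 : 1 < A := by
    by_contra hc
    have h := two 1 le_rfl
    have : A ^ 3 ≤ 1 ^ 3 := (Odd.pow_le_pow (by decide)).2 (not_lt.1 hc)
    norm_num at h this
    linarith
  have mono : ∀ n, 1 ≤ n → ⌊A ^ 3 ^ n⌋₊ < ⌊A ^ 3 ^ (n + 1)⌋₊ := fun n hn => by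
    have h := two n hn
    rw [Nat.lt_iff_add_one_le, ← Nat.floor_add_one (by positivity)]
    apply Nat.floor_le_floor
    rw [pow_succ, pow_mul]
    generalize A ^ 3 ^ n = t at h
    nlinarith [mul_le_mul h h (by norm_num) (by linarith)]
  have sm : StrictMono fun k => ⌊A ^ 3 ^ (k + 1)⌋₊ :=
    strictMono_nat_of_lt_succ fun k => mono _ (by omega)
  obtain ⟨c1, c2⟩ := core (a, b, c) (if y < 0 then 0 else 1) (fun k => ⌊A ^ 3 ^ (m + k)⌋₊) (k0 + 1)
    (fun k hk => hA _ (by omega))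
    (fun k hk => by
      rw [← hk0 k (by omega), ← pow_mul, ← pow_add]
      exact Int.natCast_floor_eq_floor (by positivity))
    (fun k hk j hj => by
      have := sm (show m + k - 1 < m + j - 1 by omega)
      simpa [show m + k - 1 + 1 = m + k by omega, show m + j - 1 + 1 = m + j by omega] using this)
  have ha : a % 3 = 0 ∨ a % 3 = 1 ∨ a % 3 = 2 := by omega
  have hb : b % 3 = 0 ∨ b % 3 = 1 ∨ b % 3 = 2 := by omega
  have hc : c % 3 = 0 ∨ c % 3 = 1 ∨ c % 3 = 2 := by omega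
  refine ⟨fun h => ?_, fun h => ?_, fun h => ?_⟩
  · rw [if_pos h] at c1
    simp only at c1
    revert c1
    rcases ha with ha | ha | ha <;> rcases hb with hb | hb | hb <;> rcases hc with hc | hc | hc <;>
      rw [ha, hb, hc] <;> decide
  · rw [if_neg (not_lt.2 h.le)] at c1
    simp only at c1
    revert c1
    rcases ha with ha | ha | ha <;> rcases hb with hb | hb | hb <;> rcases hc with hc | hc | hc <;>
      rw [ha, hb, hc] <;> decide
  · have hD : disc (a, b, c) ≠ 0 := by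
      have hβ : 1 ≤ A ^ 3 ^ m := one_le_pow₀ hA1.le
      have e := hs.disc_eq
      have y1 := abs_lt.1 hy
      have z1 := abs_lt.1 (hz.trans hy)
      have yz : y - z ≠ 0 := fun e => by rw [sub_eq_zero.1 e] at hz; exact lt_irrefl _ hz
      intro h0
      rw [h0, Int.cast_zero, eq_comm, pow_eq_zero_iff two_ne_zero] at e
      exact mul_ne_zero (mul_ne_zero (by linarith) yz) (by linarith) e
    refine ⟨m + k0 + 4 + (disc (a, b, c)).natAbs, fun n hn => ?_⟩
    obtain ⟨k, rfl⟩ : ∃ k, n = m + k := ⟨n - m, by omega⟩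
    have big : m + k - 1 ≤ ⌊A ^ 3 ^ (m + k)⌋₊ := by
      have := sm.le_apply (x := m + k - 1)
      simpa [show m + k - 1 + 1 = m + k by omega] using this
    refine c2 k (by omega) (by omega) ?_ fun h0 => ?_
    · rcases h with h | h
      · rw [if_pos h.1]; simp only; omega
      · rw [if_neg (not_lt.2 h.1.le)]; simp only; omega
    · have := Int.natAbs_dvd_natAbs.2 ((ZMod.intCast_zmod_eq_zero_iff_dvd _ _).1 h0)
      have := Nat.le_of_dvd (Int.natAbs_pos.2 hD) this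
      simp only [Int.natAbs_natCast] at this
      omega

end Pool.Agent.Lib.MP_2c63aa_nt
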